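import Mathlib
import Pool.Agent.Q301.Simple.Main

/-!
# The theory of the hyperfinite II_1 factor is not simple

Let `R` be the hyperfinite II_1 factor. There are a model `M` of the theory of `R` (a tracial
ultrapower of `R`), a set `B` in `M` and a complete type over `B` that divides over every separable
subset of `B`.

The proof. `R` is generated by commuting copies of the `2 × 2` matrices; let `s n` be the symmetry
`diag(1,-1)` of the `n`-th copy. For a function `f` let `S f` be the element `(s (f n))_n` of the
ultrapower; `S f` and `S g` have distance `√2` if `f` and `g` are eventually different. Take a family
`(f_x, g_x)`, indexed by the continuum, of eventually different functions, such that the finitely many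
pairs `(f_x n, g_x n)` form a finite permutation for every `n`. Finite permutations of the tensor
factors are inner, so one unitary `u` of the ultrapower conjugates `S f_x` to `S g_x` for every `x`.
The set `B` consists of all `S f_x` and `S g_x`, and the type is that of `u` over `B`. A separable
subset `A` of `B` misses some `S g_x`, and `S g_x, S r_1, S r_2, …`, with the constant functions `r_n`
which are not used so far, is indiscernible over all other elements of `B`, because tuples of
sequences of tensor factors with the same pattern of equalities are conjugate. But no unitary
conjugates `S f_x` to both `S g_x` and `S r_1`.
-/

set_option autoImplicit false

namespace Pool.Agent.Results.MP_baa3fb_lc.NotSimple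

open Pool.Agent.H504R3.S Pool.Agent.Q301.Simple

/-- The continuous theory of the hyperfinite II_1 factor is not simple. -/
theorem result (R : Str) (hR : R.IsHyperfinite) : ¬ IsSimple R :=
  not_simple R hR

end Pool.Agent.Results.MP_baa3fb_lc.NotSimple
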